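import Pool.Agent.Q7.CJ.Stm

/-!
# Project CJ, job H90: Hilbert's Theorem 90 for ideals

The ideals of a ring form a commutative semiring (sum and product).  The classical formula of Hilbert 90 works there:
`K = ∑_(i<p) (∏_(j<i) σ^j I) (∏_(i≤j<p) σ^j J)` satisfies `I σK = J K`.
-/

set_option autoImplicit false

namespace Pool.Agent.Q231.CJ

open Polynomial Pool.Agent.Q7.CJ

/-- the `i`-th term of the formula -/
def tm {R : Type*} [CommSemiring R] (m : R →+* R) (p : ℕ) (I J : R) (i : ℕ) : R :=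
  (∏ j ∈ Finset.range i, m^[j] I) * (∏ j ∈ Finset.Ico i p, m^[j] J)

theorem tm_step {R : Type*} [CommSemiring R] (m : R →+* R) (p : ℕ) (I J : R) (hJ : m^[p] J = J) (i : ℕ) (hi : i < p) :
    I * m (tm m p I J i) = J * tm m p I J (i + 1) := by
  unfold tm
  have h1 : I * m (∏ j ∈ Finset.range i, m^[j] I) = ∏ j ∈ Finset.range (i + 1), m^[j] I := by
    rw [Finset.prod_range_succ', map_prod]
    simp only [Function.iterate_succ_apply', Function.iterate_zero, id_eq]
    rw [mul_comm]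
  have h2 : m (∏ j ∈ Finset.Ico i p, m^[j] J) = J * ∏ j ∈ Finset.Ico (i + 1) p, m^[j] J := by
    have h3 : m (∏ j ∈ Finset.Ico i p, m^[j] J) = ∏ j ∈ Finset.Ico (i + 1) (p + 1), m^[j] J := by
      rw [map_prod, ← Finset.prod_Ico_add' (fun j => m^[j] J) i p 1]
      refine Finset.prod_congr rfl fun j _ => ?_
      rw [Function.iterate_succ_apply']
    rw [h3, Finset.prod_Ico_succ_top (by omega), hJ, mul_comm]
  rw [map_mul, ← mul_assoc, h1, h2]
  ring

theorem h90_abs {R : Type*} [CommSemiring R] (m : R →+* R) (p : ℕ) (hp : 0 < p) (I J : R) (hJ : m^[p] J = J)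
    (hIJ : ∏ j ∈ Finset.range p, m^[j] I = ∏ j ∈ Finset.range p, m^[j] J) :
    I * m (∑ i ∈ Finset.range p, tm m p I J i) = J * ∑ i ∈ Finset.range p, tm m p I J i := by
  obtain ⟨q, rfl⟩ : ∃ q, p = q + 1 := ⟨p - 1, by omega⟩
  rw [map_sum, Finset.mul_sum, Finset.sum_congr rfl (fun i hi => tm_step m (q + 1) I J hJ i (Finset.mem_range.1 hi)),
    ← Finset.mul_sum]
  congr 1
  rw [Finset.sum_range_succ, Finset.sum_range_succ' (fun i => tm m (q + 1) I J i) q]
  congr 1
  unfold tm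
  rw [Finset.Ico_self, Finset.prod_empty, mul_one, Finset.range_zero, Finset.prod_empty, one_mul, hIJ,
    Finset.range_eq_Ico]

section

variable (p : ℕ) {L : Type} [Field L]

theorem sg_cc (D ζ : L) (h : ζ ^ p = 1) (a : L) : sg p D ζ h (cc p D a) = cc p D a := sg_of p D ζ h (C a)

theorem sgi_xx (D ζ : L) (h : ζ ^ p = 1) (i : ℕ) : sgi p D ζ h i (xx p D) = cc p D ζ ^ i * xx p D := by
  unfold sgi
  rw [sg_xx]
  unfold cc
  rw [C_pow, map_pow]

/-- two homomorphisms over `L[y]` with the same value at `x` are equal -/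
theorem hom_eq {D : L} {f g : BR p D →ₐ[L[X]] BR p D} (h : f (xx p D) = g (xx p D)) : f = g :=
  AdjoinRoot.algHom_ext h

theorem sg_comp_sgi (D ζ : L) (h : ζ ^ p = 1) (i : ℕ) :
    (sg p D ζ h).comp (sgi p D ζ h i) = sgi p D ζ h (i + 1) := by
  apply hom_eq
  rw [AlgHom.comp_apply, sgi_xx, sgi_xx, map_mul, map_pow, sg_cc, sg_xx, pow_succ, mul_assoc]

theorem sgi_zero (D ζ : L) (h : ζ ^ p = 1) : sgi p D ζ h 0 = AlgHom.id L[X] (BR p D) := by
  apply hom_eq
  rw [sgi_xx, pow_zero, one_mul, AlgHom.id_apply]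

theorem sgi_p (D ζ : L) (h : ζ ^ p = 1) : sgi p D ζ h p = AlgHom.id L[X] (BR p D) := by
  apply hom_eq
  rw [sgi_xx, AlgHom.id_apply]
  unfold cc
  rw [← map_pow, ← C_pow, h, map_one, map_one, one_mul]

theorem map_sgi (D ζ : L) (h : ζ ^ p = 1) (i : ℕ) (I : Ideal (BR p D)) :
    I.map (sgi p D ζ h i) = (Ideal.mapHom (sg p D ζ h : BR p D →+* BR p D))^[i] I := by
  induction i with
  | zero =>
    rw [sgi_zero, Function.iterate_zero, id_eq]
    exact Ideal.map_id I
  | succ i ih =>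
    rw [Function.iterate_succ_apply', ← ih, ← sg_comp_sgi]
    exact (Ideal.map_map (sgi p D ζ h i : BR p D →+* BR p D) (sg p D ζ h : BR p D →+* BR p D)).symm

end

end Pool.Agent.Q231.CJ

namespace Pool.Agent.Q231.CJ.H90

open Polynomial Pool.Agent.Q7.CJ Pool.Agent.Q231.CJ

theorem h90 : S_DED → S_H90 := by
  intro _ p _ _ L _ _ ζ hζ _ D _ I J hI hJ hIJ
  have hp : 0 < p := (Fact.out (p := p.Prime)).pos
  have hJp : (Ideal.mapHom (sg p D ζ hζ : BR p D →+* BR p D))^[p] J = J := by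
    rw [← map_sgi, sgi_p]
    exact Ideal.map_id J
  have hbot : ∏ j ∈ Finset.range p, (Ideal.mapHom (sg p D ζ hζ : BR p D →+* BR p D))^[j] J ≠ ⊥ := by
    rw [← Ideal.zero_eq_bot, Finset.prod_ne_zero_iff]
    intro i _ h0
    -- the map is injective, being of finite order
    have h1 : ∀ i, i ≤ p → (Ideal.mapHom (sg p D ζ hζ : BR p D →+* BR p D))^[i] J = 0 → False := by
      intro i hi h0
      have h2 : (Ideal.mapHom (sg p D ζ hζ : BR p D →+* BR p D))^[(p - i) + i] J = 0 := by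
        rw [Function.iterate_add_apply, h0, iterate_map_zero]
      rw [Nat.sub_add_cancel hi, hJp] at h2
      exact hJ h2
    rename_i hi
    exact h1 i (Finset.mem_range.1 hi).le h0
  refine ⟨∑ i ∈ Finset.range p, tm (Ideal.mapHom (sg p D ζ hζ : BR p D →+* BR p D)) p I J i, ?_, ?_⟩
  · intro h0
    apply hbot
    rw [eq_bot_iff, ← h0]
    have h3 : tm (Ideal.mapHom (sg p D ζ hζ : BR p D →+* BR p D)) p I J 0 ≤
        ∑ i ∈ Finset.range p, tm (Ideal.mapHom (sg p D ζ hζ : BR p D →+* BR p D)) p I J i := by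
      rw [Ideal.sum_eq_sup]
      exact Finset.le_sup (f := fun i => tm (Ideal.mapHom (sg p D ζ hζ : BR p D →+* BR p D)) p I J i)
        (Finset.mem_range.2 hp)
    refine le_trans (le_of_eq ?_) h3
    unfold tm
    rw [Finset.range_zero, Finset.prod_empty, one_mul, Finset.range_eq_Ico]
  · refine h90_abs (Ideal.mapHom (sg p D ζ hζ : BR p D →+* BR p D)) p hp I J hJp ?_
    simp only [map_sgi] at hIJ
    exact hIJ

end Pool.Agent.Q231.CJ.H90
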